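import Pool.Agent.Run7.h909.TD.Trees
import Pool.Agent.Run7.h1.SR.Tf

/-!
# L-theory and torsion-free groups acting on complexes of dimension two and of nonpositive curvature

Problem `MP_8a3537_gt`, question Q1 (the L-theoretic assembly map for torsion-free groups and all rings with
involution).

Let `C` be a class of groups with the closure properties `ClosedE` (`C` contains the infinite cyclic group,
it is closed under subgroups, finite products, free products, overgroups of finite index and directed
colimits, and it satisfies the extension criterion). Suppose also `CatC C`: the class contains the groups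
which act properly and cocompactly by isometries on a simply connected locally finite piecewise Euclidean
complex of dimension two and of nonpositive curvature. All this is known for the class of the groups whose
wreath products with finite groups satisfy the K- and L-theoretic Farrell-Jones conjecture with
coefficients in additive categories with involution (Bartels-Lück, Wegner for `CatC`), and the torsion-free
groups in this class satisfy the assertion of Q1. Let `Iso` be a property which all torsion-free groups in
`C` have, for this class: the assembly maps `A_n` are isomorphisms for all rings with involution.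

A piecewise Euclidean complex of dimension two is described by a graph `T`, by the set `F` of the closed
edge paths along which convex Euclidean polygons are glued in, by the lengths `ℓ` of the edges and by the
angles `w` of the polygons; the structure `Cx` contains Gromov's link condition. There may be infinitely
many isometry types of polygons, and the complex is not supposed to be locally finite.

* `Main`: Let `G` act by isometries on a simply connected complex `X` of this kind such that each element
  fixing a vertex `x` has a power fixing a given neighbour of `x` (this holds if `X` is locally finite and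
  also if the stabilizers are torsion groups). Suppose that for each vertex `x` there is a homomorphism
  from `G` to a group in `C` whose kernel meets the stabilizer of `x` in a finite group. Then all
  torsion-free subgroups of `G` have the property `Iso`. There is no cocompactness assumption.
* `Proper`: if `G` acts on such a complex with finite stabilizers of vertices, then all its torsion-free
  subgroups have the property `Iso`. In particular: all fundamental groups of aspherical complexes of
  dimension two and of nonpositive curvature, with any number of cells, have the property `Iso`.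
* `Products`: Let `G` act on two trees and suppose that for all vertices `x` of the first and `y` of the
  second tree the elements of the stabilizer of `x` and `y` have powers fixing given neighbours, and that
  there is a homomorphism from `G` to a group in `C` whose kernel meets the stabilizer of `x` and `y` in
  a finite group. Then all torsion-free subgroups of `G` have the property `Iso`.
* `ProductsProper`: the same for each group which acts on two trees such that the group of the elements
  fixing a vertex of the first and a vertex of the second tree is always finite.

Examples: the torsion-free subgroups of all discrete subgroups, cocompact or not, of the automorphism groups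
of locally finite two-dimensional buildings and of products of two trees, and of the Kac-Moody groups over
finite fields whose Weyl group is a free product of groups of order two; extensions of groups in `C` by
such kernels `N` if the action of `N` extends to the extension. The known results for groups acting on CAT(0)
spaces (Bartels and Lück, Wegner) assume a cocompact action.

That the groups are in `C` is the theorem `MP_e40716_gt.TwoDimensionalComplexes` of helper909, handed in
for the K-theoretic conjecture; here it is applied to the L-theory of torsion-free groups.
-/

set_option autoImplicit false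

namespace Pool.Agent.Results.MP_8a3537_gt.TwoDimensionalComplexes

open Run7.h909.TD Pool.Agent.Run7.h1.SR
open Pool.Agent.Y110.FJ (ClosedE)
open SimpleGraph

/-- actions on complexes of dimension two with a homomorphism controlling the stabilizers -/
def Main (C Iso : ∀ (G : Type) [Group G], Prop) : Prop :=
  ∀ (G V : Type) [Group G] [MulAction G V] (T : SimpleGraph V) (F : Set (ℤ → V))
    (ℓ : V → V → ℝ) (w : (ℤ → V) → ℝ),
    Cx T F ℓ w → SC T F → Ac G T F → Mi G T F ℓ w →
    (∀ x y : V, T.Adj x y → ∀ g : G, g • x = x → ∃ n : ℕ, 0 < n ∧ g ^ n • y = y) →
    (∀ x : V, ∃ (P : Type) (_ : Group P) (f : G →* P), C P ∧ {g : G | g • x = x ∧ f g = 1}.Finite) →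
    TfSub Iso G

/-- actions on complexes of dimension two with finite stabilizers -/
def Proper (Iso : ∀ (G : Type) [Group G], Prop) : Prop :=
  ∀ (G V : Type) [Group G] [MulAction G V] (T : SimpleGraph V) (F : Set (ℤ → V))
    (ℓ : V → V → ℝ) (w : (ℤ → V) → ℝ),
    Cx T F ℓ w → SC T F → Ac G T F → Mi G T F ℓ w → (∀ x : V, {g : G | g • x = x}.Finite) → TfSub Iso G

/-- actions on products of two trees with a homomorphism controlling the stabilizers -/
def Products (C Iso : ∀ (G : Type) [Group G], Prop) : Prop :=
  ∀ (G V₁ V₂ : Type) [Group G] [MulAction G V₁] [MulAction G V₂] (T₁ : SimpleGraph V₁)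
    (T₂ : SimpleGraph V₂), T₁.IsTree → T₂.IsTree →
    (∀ (g : G) (x y : V₁), T₁.Adj x y → T₁.Adj (g • x) (g • y)) →
    (∀ (g : G) (x y : V₂), T₂.Adj x y → T₂.Adj (g • x) (g • y)) →
    (∀ (x : V₁) (y : V₂) (g : G), g • x = x → g • y = y →
      (∀ x', T₁.Adj x x' → ∃ n : ℕ, 0 < n ∧ g ^ n • x' = x') ∧
      ∀ y', T₂.Adj y y' → ∃ n : ℕ, 0 < n ∧ g ^ n • y' = y') →
    (∀ (x : V₁) (y : V₂), ∃ (P : Type) (_ : Group P) (f : G →* P), C P ∧
      {g : G | g • x = x ∧ g • y = y ∧ f g = 1}.Finite) → TfSub Iso G

/-- actions on two trees such that the intersections of the stabilizers are finite -/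
def ProductsProper (Iso : ∀ (G : Type) [Group G], Prop) : Prop :=
  ∀ (G V₁ V₂ : Type) [Group G] [MulAction G V₁] [MulAction G V₂] (T₁ : SimpleGraph V₁)
    (T₂ : SimpleGraph V₂), T₁.IsTree → T₂.IsTree →
    (∀ (g : G) (x y : V₁), T₁.Adj x y → T₁.Adj (g • x) (g • y)) →
    (∀ (g : G) (x y : V₂), T₂.Adj x y → T₂.Adj (g • x) (g • y)) →
    (∀ (x : V₁) (y : V₂), {g : G | g • x = x ∧ g • y = y}.Finite) → TfSub Iso G

/-- an element of a finite stabilizer has a power which is trivial -/
theorem pow_one_of_finite {G : Type} [Group G] (H : Subgroup G) (hH : (H : Set G).Finite) {g : G}
    (hg : g ∈ H) : ∃ n : ℕ, 0 < n ∧ g ^ n = 1 := by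
  have : Finite H := hH.to_subtype
  obtain ⟨n, hn, h⟩ := isOfFinOrder_iff_pow_eq_one.1 (isOfFinOrder_of_finite (⟨g, hg⟩ : H))
  exact ⟨n, hn, congrArg Subtype.val h⟩

/-- **Torsion-free groups which act properly on complexes of dimension two and of nonpositive curvature,
without cocompactness, and torsion-free groups acting on such complexes whose stabilizers are controlled
by homomorphisms to groups in the class `C`.** -/
theorem result (C : ∀ (G : Type) [Group G], Prop) (hC : ClosedE C) (hcat : CatC C)
    (Iso : ∀ (π : Type) [Group π], Prop)
    (hI : ∀ (π : Type) [Group π], C π → TorsionFree π → Iso π) :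
    Main C Iso ∧ Proper Iso ∧ Products C Iso ∧ ProductsProper Iso := by
  have hone : C (Multiplicative ℤ) := hC.base.int
  refine ⟨?_, ?_, ?_, ?_⟩
  · intro G V _ _ T F ℓ w hx hs hA hM hG h
    exact tf_sub hC hI (main hC hcat hx hs hA hM hG h)
  · intro G V _ _ T F ℓ w hx hs hA hM hf
    refine tf_sub hC hI (main hC hcat hx hs hA hM ?_ ?_)
    · intro x y _ g hg
      obtain ⟨n, hn, h⟩ := pow_one_of_finite (MulAction.stabilizer G x) (hf x) hg
      exact ⟨n, hn, by rw [h, one_smul]⟩
    · exact fun x => ⟨Multiplicative ℤ, inferInstance, 1, hone, (hf x).subset fun g hg => hg.1⟩
  · intro G V₁ V₂ _ _ _ T₁ T₂ h1 h2 a1 a2 hg h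
    exact tf_sub hC hI (trees hC hcat h1 h2 a1 a2 hg h)
  · intro G V₁ V₂ _ _ _ T₁ T₂ h1 h2 a1 a2 hf
    refine tf_sub hC hI (trees hC hcat h1 h2 a1 a2 ?_ ?_)
    · intro x y g hgx hgy
      obtain ⟨n, hn, h⟩ := pow_one_of_finite
        (MulAction.stabilizer G x ⊓ MulAction.stabilizer G y) (hf x y) ⟨hgx, hgy⟩
      exact ⟨fun x' _ => ⟨n, hn, by rw [h, one_smul]⟩, fun y' _ => ⟨n, hn, by rw [h, one_smul]⟩⟩
    · exact fun x y => ⟨Multiplicative ℤ, inferInstance, 1, hone,
        (hf x y).subset fun g hg => ⟨hg.1, hg.2.1⟩⟩

end Pool.Agent.Results.MP_8a3537_gt.TwoDimensionalComplexes
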