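import Pool.Agent.Run7.h952.AW.Virt

/-!
# Artin groups with symmetries, virtual braid groups and virtual Artin groups

`C` is any class of groups with the closure properties `ClosedE C` (it contains `ℤ`; it is closed under
subgroups, finite direct products, free products, overgroups of finite index and directed colimits; and
it satisfies the extension criterion of the Farrell-Jones conjecture) which contains the Coxeter groups
of finite rank. All this is published for the class of the groups which satisfy the Full Farrell-Jones
Conjecture. The torsion-free groups of this class satisfy the assertion of Q1 for all rings with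
involution. So Q1 holds for the torsion-free groups among the groups below, for instance for the pure
virtual braid groups.

This theorem of helper952 was first handed in for the Full Farrell-Jones Conjecture
(`MP_490288_al.VirtualArtin`).

Let `M` be a Coxeter matrix on a set `B`, finite or infinite; the entry `0` stands for the label
infinity. `Shephard M p` is the group with the generators `s_i`, `i ∈ B`, the braid relations of `M` and
the relations `s_i ^ p i = 1`, where the exponents are even or zero and equal for odd labels. The case
`p = 0` is the Artin group of `M`, the case `p = 2` the Coxeter group.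

**Theorem.**
* (1) Let `Shephard M p` be (isomorphic to) a normal subgroup `N` of a group `G` such that conjugation by
  each element of `G` permutes the generators, up to conjugation with an element of `N`, by a symmetry of
  `(M, p)`. If `G / N` and the irreducible standard parabolic subgroups of `Shephard M p` of finite rank
  without infinite labels are in `C`, then `G` is in `C`.
* (2) A semidirect product `Shephard M p ⋊ Q`, where `Q` acts by symmetries of `(M, p)` and inner
  automorphisms, is in `C` if and only if `Q` and these parabolic subgroups are in `C`.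
* (3) If a Coxeter group of any rank is a normal subgroup `N` of `G` and `G` acts on it in this way, and
  `G / N` is in `C`, then `G` is in `C`.
* (4) Let `C` contain the Artin groups of the types `A_n` and `Ã_n` (the braid groups and the annular
  braid groups, which embed in braid groups). Let `X` be a set and let `KB X` be the group with the
  generators `d x y`, `x ≠ y` in `X`, and the relations `d x y · d z w = d z w · d x y` for different
  `x, y, z, w` and `d x y · d y z · d x y = d y z · d x y · d y z` for different `x, y, z`. If a group `Q`
  acts on `X`, then `KB X ⋊ Q` is in `C` if and only if `Q` is in `C`.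

There is no condition on the orbits of the action on the generators or on their stabilizers; `B` and the
orbits may be infinite.

Applications. The virtual braid group `VB_n` is `KB {1, …, n} ⋊ S_n` (Rabenda; Bardakov and Bellingeri), so by
(4) all virtual braid groups, and with them the pure virtual braid groups (the quasitriangular groups of
Bartholdi, Enriquez, Etingof and Rains), satisfy the Full Farrell-Jones Conjecture; the same holds for
the infinite versions `KB X ⋊ Q` with `Q` any Farrell-Jones group which acts on a set `X`. More generally,
Bellingeri, Paris and Thiel have shown that the virtual Artin group `VA[Γ]` of a Coxeter graph `Γ` is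
`KVA[Γ] ⋊ W[Γ]`, where `KVA[Γ]` is an Artin group whose generators are the (usually infinitely many) roots
of `Γ`, permuted by `W[Γ]`. By (2), `VA[Γ]` is in `C` if and only if the irreducible parabolic subgroups of
`KVA[Γ]` without infinite labels are.

Outline of the proof.
* By the criterion `Q30.FJ.crit_loc` it suffices to embed for each `g ∈ G` and each finite subset `E` of
  `N` the group generated by `E` and `g E g⁻¹` in a group `P` in `C` such that conjugation by `g` is
  induced on `E` by an automorphism of `P` with an inner power.
* `approx` (finite approximation of an automorphism of a Coxeter matrix): let `σ` be the symmetry of `M`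
  given by `g`, and let `U` be the union of the orbits of `σ` that meet a given finite set `S`. For a large
  `n` with `σ ^ n = 1` on the finite orbits in `U`, the set `T` of the orbits of `σ ^ n` on `U` becomes a
  Coxeter matrix: the label of two elements of `T` is the label of representatives at bounded distance,
  and infinity if there are none. Then `σ` acts on `T`, labels of elements of `S` are preserved, and every
  subset of `T` without infinite labels is the isomorphic image of a subset of `U` without infinite
  labels.
* So the irreducible parabolic subgroups without infinite labels of the group `P` of `T` are such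
  subgroups of `Shephard M p`, and `P` is in `C` by the reduction theorem for Artin groups of all
  labels (`Run7.h952.AR`, proved for MP_2a0850_gt). The diagram automorphism of `P` times an inner
  automorphism has an inner power, as `T` is finite; and parabolic subgroups inject.
* (4): a finite irreducible set of pairs without infinite labels is a directed path or a directed cycle
  of length at least three (`path_or_cycle`), so the parabolic subgroups have the types `A_n` and `Ã_n`.
-/

set_option autoImplicit false

namespace Pool.Agent.Results.MP_8a3537_gt.VirtualArtin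

open Pool.Agent.Y110.FJ (ClosedE)

/-- the product `a b a ...` with `m` factors -/
def altProd {G : Type} [Monoid G] (a b : G) (m : ℕ) : G :=
  ((List.range m).map (fun k => if Even k then a else b)).prod

/-- the braid relators of the Coxeter matrix `M` (the entry `0` stands for infinity: no relation), and
the powers of the generators with the exponents `p` (`0` stands for no relation) -/
def relators {B : Type} (M : CoxeterMatrix B) (p : B → ℕ) : Set (FreeGroup B) :=
  {r | (∃ i j : B, r = altProd (FreeGroup.of i) (FreeGroup.of j) (M i j) *
    (altProd (FreeGroup.of j) (FreeGroup.of i) (M i j))⁻¹) ∨ ∃ i : B, r = FreeGroup.of i ^ p i}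

/-- the Shephard group; for `p = 0` it is the Artin group of `M` -/
abbrev Shephard {B : Type} (M : CoxeterMatrix B) (p : B → ℕ) : Type :=
  PresentedGroup (relators M p)

/-- the generators of the Shephard group -/
def gen {B : Type} (M : CoxeterMatrix B) (p : B → ℕ) (b : B) : Shephard M p := PresentedGroup.of b

/-- the exponents are even, and equal on generators with an odd label; this holds for `p = 0` -/
structure Admissible {B : Type} (M : CoxeterMatrix B) (p : B → ℕ) : Prop where
  even : ∀ i, Even (p i)
  odd : ∀ i j, Odd (M i j) → p i = p j

/-- restriction of a Coxeter matrix along an injective map -/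
def restrict {A B : Type} (M : CoxeterMatrix B) (ι : A → B) (hι : Function.Injective ι) :
    CoxeterMatrix A where
  M := Matrix.of fun i j => M (ι i) (ι j)
  isSymm := by
    ext i j
    simp only [Matrix.transpose_apply, Matrix.of_apply]
    exact M.symmetric _ _
  diagonal i := by simp
  off_diagonal i i' h := by
    simp only [Matrix.of_apply]
    exact M.off_diagonal _ _ (fun h' => h (hι h'))

/-- The irreducible standard parabolic subgroups of finite rank without infinite labels are in `C`. -/
def ParabolicsIn (C : ∀ (G : Type) [Group G], Prop) {B : Type} (M : CoxeterMatrix B)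
    (p : B → ℕ) : Prop :=
  ∀ (A : Type) [Finite A] [Nonempty A] (ι : A → B) (hι : Function.Injective ι),
    (∀ i j, M (ι i) (ι j) ≠ 0) →
    (∀ S : Set A, S.Nonempty → Sᶜ.Nonempty → ∃ x ∈ S, ∃ y, y ∉ S ∧ M (ι x) (ι y) ≠ 2) →
    C (Shephard (restrict M ι hι) (p ∘ ι))

/-- the symmetries of a Coxeter matrix with exponents -/
def IsSymmetry {B : Type} (M : CoxeterMatrix B) (p : B → ℕ) (σ : Equiv.Perm B) : Prop :=
  (∀ x y, M (σ x) (σ y) = M x y) ∧ ∀ x, p (σ x) = p x

/-- the homomorphism `f` of groups which contain `Shephard M p` is given on this subgroup by a symmetry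
of `(M, p)` and an inner automorphism; `i` is the inclusion -/
def BySymmetry {B G : Type} [Group G] (M : CoxeterMatrix B) (p : B → ℕ) (i : Shephard M p →* G)
    (f : G →* G) : Prop :=
  ∃ (σ : Equiv.Perm B) (n : Shephard M p), IsSymmetry M p σ ∧
    ∀ b, f (i (gen M p b)) = i (n * gen M p (σ b) * n⁻¹)

/-- (1) extensions of Shephard groups -/
def Extensions (C : ∀ (G : Type) [Group G], Prop) : Prop :=
  ∀ (B : Type) (M : CoxeterMatrix B) (p : B → ℕ), Admissible M p → ParabolicsIn C M p →
    ∀ (G : Type) [Group G] (i : Shephard M p →* G) [i.range.Normal], Function.Injective i →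
      (∀ g : G, BySymmetry M p i (MulAut.conj g).toMonoidHom) → C (G ⧸ i.range) → C G

/-- (2) semidirect products with Shephard groups -/
def SemidirectProducts (C : ∀ (G : Type) [Group G], Prop) : Prop :=
  ∀ (B : Type) (M : CoxeterMatrix B) (p : B → ℕ), Admissible M p →
    ∀ (Q : Type) [Group Q] (α : Q →* MulAut (Shephard M p)),
      (∀ q : Q, BySymmetry M p (MonoidHom.id _) (α q).toMonoidHom) →
      (C (Shephard M p ⋊[α] Q) ↔ ParabolicsIn C M p ∧ C Q)

/-- (3) extensions of Coxeter groups -/
def CoxeterExtensions (C : ∀ (G : Type) [Group G], Prop) : Prop :=
  ∀ (B : Type) (M : CoxeterMatrix B) (G : Type) [Group G] (i : M.Group →* G) [i.range.Normal],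
    Function.Injective i →
    (∀ g : G, ∃ (σ : Equiv.Perm B) (n : M.Group), (∀ x y, M (σ x) (σ y) = M x y) ∧
      ∀ b, g * i (M.simple b) * g⁻¹ = i (n * M.simple (σ b) * n⁻¹)) →
    C (G ⧸ i.range) → C G

/-- the Coxeter matrix of type `Ã_{n-1}`: a cycle with `n` vertices -/
def cycle (n : ℕ) : CoxeterMatrix (Fin n) where
  M := Matrix.of fun i j : Fin n => if i = j then 1 else
    if (i : ℕ) + 1 = j ∨ (j : ℕ) + 1 = i ∨ ((i : ℕ) + 1 = n ∧ (j : ℕ) = 0) ∨
      ((j : ℕ) + 1 = n ∧ (i : ℕ) = 0) then 3 else 2
  isSymm := (Run7.h952.AW.cyc n).isSymm
  diagonal := (Run7.h952.AW.cyc n).diagonal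
  off_diagonal := (Run7.h952.AW.cyc n).off_diagonal

open Classical in
/-- the Coxeter matrix on the ordered pairs `(x, y)`, `x ≠ y`: the label of `(x, y)` and `(y, z)` is three if
`z ≠ x`, the label of two pairs without common entries is two, all other labels are infinite -/
noncomputable def pairMatrix (X : Type) : CoxeterMatrix {a : X × X // a.1 ≠ a.2} where
  M := Matrix.of fun a b => if a = b then 1 else
    if (a.1.2 = b.1.1 ∧ b.1.2 ≠ a.1.1) ∨ (b.1.2 = a.1.1 ∧ a.1.2 ≠ b.1.1) then 3 else
    if a.1.1 ≠ b.1.1 ∧ a.1.1 ≠ b.1.2 ∧ a.1.2 ≠ b.1.1 ∧ a.1.2 ≠ b.1.2 then 2 else 0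
  isSymm := (Run7.h952.AW.kb X).isSymm
  diagonal := (Run7.h952.AW.kb X).diagonal
  off_diagonal := (Run7.h952.AW.kb X).off_diagonal

/-- the Artin group of `pairMatrix X`; its semidirect product with the symmetric group of `X` is the
virtual braid group on `X` -/
abbrev KB (X : Type) : Type := Shephard (pairMatrix X) (fun _ => 0)

/-- (4) virtual braid groups on arbitrary sets -/
def VirtualBraids (C : ∀ (G : Type) [Group G], Prop) : Prop :=
  (∀ n, C (Shephard (CoxeterMatrix.A (n + 1)) (fun _ => 0))) →
  (∀ n, 2 ≤ n → C (Shephard (cycle (n + 1)) (fun _ => 0))) →
  ∀ (X Q : Type) [Group Q] [MulAction Q X] (α : Q →* MulAut (KB X)),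
    (∀ (q : Q) (x y : X) (h : x ≠ y), α q (gen (pairMatrix X) (fun _ => 0) ⟨(x, y), h⟩) =
      gen (pairMatrix X) (fun _ => 0)
        ⟨(q • x, q • y), fun h' => h (MulAction.injective q h')⟩) →
    (C (KB X ⋊[α] Q) ↔ C Q)

theorem result (C : ∀ (G : Type) [Group G], Prop) (hC : ClosedE C)
    (hcox : ∀ (S : Type) [Finite S] (A : CoxeterMatrix S), C A.Group) :
    Extensions C ∧ SemidirectProducts C ∧ CoxeterExtensions C ∧ VirtualBraids C := by
  refine ⟨fun B M p hp hpar G _ i hN hi hg hQ => ?_, fun B M p hp Q _ α hα => ?_,
    fun B M G _ i _ hi hg hQ => Run7.h952.AW.ext_cox hC hcox B M G i hi hQ hg,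
    fun hA hA' X Q _ _ α hα => Run7.h952.AW.kb_semi hC hcox hA hA' X Q α hα⟩
  · have h1 : C (Shephard M p) :=
      (Run7.h952.AR.main_irr hC hcox B M p ⟨hp.even, hp.odd⟩).2 hpar
    refine @Run7.h952.AW.ext_sh C hC hcox B M p ⟨hp.even, hp.odd⟩ h1 G _ i hi hN hQ fun g => ?_
    obtain ⟨σ, n, hσ, hn⟩ := hg g
    exact ⟨σ, n, hσ.1, hσ.2, hn⟩
  · have h1 : C (Shephard M p) ↔ ParabolicsIn C M p :=
      Run7.h952.AR.main_irr hC hcox B M p ⟨hp.even, hp.odd⟩
    rw [← h1]
    refine Run7.h952.AW.semi_sh hC hcox B M p ⟨hp.even, hp.odd⟩ Q α fun q => ?_
    obtain ⟨σ, n, hσ, hn⟩ := hα q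
    exact ⟨σ, n, hσ.1, hσ.2, hn⟩

end Pool.Agent.Results.MP_8a3537_gt.VirtualArtin
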